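import Pool.Agent.helper10.QT.SpecY

set_option autoImplicit false

namespace Pool.Agent.AT

open Finset Pool.Agent.helper85.FC

open scoped Pointwise

theorem AGE_num (A B : ℕ) (hA : 0 < A) (hB : 0 < B) :
    ((A : ℚ) / B).num.natAbs = Pool.Agent.AL.lo A B ∧ ((A : ℚ) / B).den = Pool.Agent.AL.lo B A := by
  have hg : 0 < Nat.gcd A B := Nat.gcd_pos_of_pos_left _ hA
  have h1 : A / Nat.gcd A B * Nat.gcd A B = A := Nat.div_mul_cancel (Nat.gcd_dvd_left A B)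
  have h2 : B / Nat.gcd A B * Nat.gcd A B = B := Nat.div_mul_cancel (Nat.gcd_dvd_right A B)
  have hc : Nat.Coprime (A / Nat.gcd A B) (B / Nat.gcd A B) := Nat.coprime_div_gcd_div_gcd hg
  have hB' : 0 < B / Nat.gcd A B := Nat.div_pos (Nat.le_of_dvd hB (Nat.gcd_dvd_right A B)) hg
  have hq : (A : ℚ) / B = (((A / Nat.gcd A B : ℕ) : ℤ) : ℚ) / (((B / Nat.gcd A B : ℕ) : ℤ) : ℚ) := by
    have hg' : ((Nat.gcd A B : ℕ) : ℚ) ≠ 0 := by exact_mod_cast hg.ne'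
    have hB'' : ((B / Nat.gcd A B : ℕ) : ℚ) ≠ 0 := by exact_mod_cast hB'.ne'
    have e1 : (A : ℚ) = ((A / Nat.gcd A B : ℕ) : ℚ) * ((Nat.gcd A B : ℕ) : ℚ) := by
      exact_mod_cast h1.symm
    have e2 : (B : ℚ) = ((B / Nat.gcd A B : ℕ) : ℚ) * ((Nat.gcd A B : ℕ) : ℚ) := by
      exact_mod_cast h2.symm
    rw [Int.cast_natCast, Int.cast_natCast]
    calc (A : ℚ) / B = (((A / Nat.gcd A B : ℕ) : ℚ) * ((Nat.gcd A B : ℕ) : ℚ)) /
        (((B / Nat.gcd A B : ℕ) : ℚ) * ((Nat.gcd A B : ℕ) : ℚ)) := by rw [← e1, ← e2]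
      _ = _ := mul_div_mul_right _ _ hg'
  have hpos : (0 : ℤ) < ((B / Nat.gcd A B : ℕ) : ℤ) := by exact_mod_cast hB'
  have hco : Nat.Coprime (((A / Nat.gcd A B : ℕ) : ℤ)).natAbs (((B / Nat.gcd A B : ℕ) : ℤ)).natAbs := by
    rw [Int.natAbs_natCast, Int.natAbs_natCast]
    exact hc
  constructor
  · rw [hq, Rat.num_div_eq_of_coprime hpos hco, Int.natAbs_natCast]
    rfl
  · have h3 := Rat.den_div_eq_of_coprime hpos hco
    rw [← hq] at h3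
    have h4 : ((A : ℚ) / B).den = B / Nat.gcd A B := by exact_mod_cast h3
    rw [h4]
    unfold Pool.Agent.AL.lo
    rw [Nat.gcd_comm]

theorem AGE : AGE_stmt := by
  classical
  intro a₀ b₀ ha₀ hb₀ hG r hr
  obtain ⟨C, hC⟩ := hG
  have hnum : 0 < r.num := Rat.num_pos.2 hr
  have ha : 0 < r.num.natAbs := Int.natAbs_pos.2 hnum.ne'
  have hb : 0 < r.den := r.den_pos
  have hcop : Nat.Coprime r.num.natAbs r.den := r.reduced
  have hrr : r = (r.num.natAbs : ℚ) / r.den := by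
    have h1 : ((r.num.natAbs : ℕ) : ℚ) = (r.num : ℚ) := by
      have h2 : ((r.num.natAbs : ℕ) : ℤ) = r.num := Int.natAbs_of_nonneg hnum.le
      rw [← Int.cast_natCast, h2]
    rw [h1]
    exact (Rat.num_div_den r).symm
  set a := r.num.natAbs with hadef
  set b := r.den with hbdef
  let S : ℕ → ℕ → Set ℤ := fun j X => {c : ℤ | |c| ≤ X ∧
    TrueCase (Pool.Agent.AL.lo (a * a₀ ^ j) (b * b₀ ^ j)) (Pool.Agent.AL.lo (b * b₀ ^ j) (a * a₀ ^ j)) c}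
  have key : ∃ j ≤ 2, ∀ X₀ : ℕ, ∃ X : ℕ, X₀ ≤ X ∧ X ≤ C * (a + b) * (S j X).ncard := by
    by_contra hcon
    have h1 : ∀ j ≤ 2, ∃ X₀ : ℕ, ∀ X : ℕ, X₀ ≤ X → C * (a + b) * (S j X).ncard < X := by
      intro j hj
      by_contra h2
      apply hcon
      refine ⟨j, hj, fun X₀ => ?_⟩
      by_contra h3
      apply h2
      refine ⟨X₀, fun X hX => ?_⟩
      by_contra h4
      exact h3 ⟨X, hX, not_lt.1 h4⟩
    obtain ⟨x0, h0⟩ := h1 0 (by norm_num)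
    obtain ⟨x1, h1'⟩ := h1 1 (by norm_num)
    obtain ⟨x2, h2⟩ := h1 2 le_rfl
    obtain ⟨j, hj, hX⟩ := hC a b ha hb hcop (C * (a + b) + x0 + x1 + x2) (by omega)
    have hX' : C * (a + b) + x0 + x1 + x2 ≤ C * (a + b) * (S j (C * (a + b) + x0 + x1 + x2)).ncard := hX
    have hj' : j = 0 ∨ j = 1 ∨ j = 2 := by omega
    rcases hj' with rfl | rfl | rfl
    · exact absurd (h0 (C * (a + b) + x0 + x1 + x2) (by omega)) (not_lt.2 hX')
    · exact absurd (h1' (C * (a + b) + x0 + x1 + x2) (by omega)) (not_lt.2 hX')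
    · exact absurd (h2 (C * (a + b) + x0 + x1 + x2) (by omega)) (not_lt.2 hX')
  obtain ⟨j, hj, hX⟩ := key
  refine ⟨j, hj, 1 / ((C * (a + b) : ℕ) + 1 : ℝ), by positivity, fun X₀ => ?_⟩
  obtain ⟨X, hX₀, hle⟩ := hX X₀
  refine ⟨X, hX₀, ?_⟩
  have hA : 0 < a * a₀ ^ j := Nat.mul_pos ha (pow_pos ha₀ j)
  have hB : 0 < b * b₀ ^ j := Nat.mul_pos hb (pow_pos hb₀ j)
  have hval : r * ((a₀ : ℚ) / b₀) ^ j = ((a * a₀ ^ j : ℕ) : ℚ) / ((b * b₀ ^ j : ℕ) : ℚ) := by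
    rw [hrr, div_pow, div_mul_div_comm]
    push_cast
    rfl
  obtain ⟨hn, hd⟩ := AGE_num (a * a₀ ^ j) (b * b₀ ^ j) hA hB
  rw [hval, hn, hd]
  have hcard : (S j X).ncard = #{c ∈ Icc (-(X : ℤ)) X |
      TrueCase (Pool.Agent.AL.lo (a * a₀ ^ j) (b * b₀ ^ j)) (Pool.Agent.AL.lo (b * b₀ ^ j) (a * a₀ ^ j)) c} := by
    rw [← Set.ncard_coe_finset]
    congr 1
    ext c
    simp only [S, Set.mem_ofPred_eq, Finset.coe_filter, Finset.mem_Icc, abs_le]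
  rw [hcard] at hle
  have hle' : (X : ℝ) ≤ ((C * (a + b) : ℕ) : ℝ) * (#{c ∈ Icc (-(X : ℤ)) X |
      TrueCase (Pool.Agent.AL.lo (a * a₀ ^ j) (b * b₀ ^ j)) (Pool.Agent.AL.lo (b * b₀ ^ j) (a * a₀ ^ j)) c} : ℝ) := by
    exact_mod_cast hle
  rw [one_div, inv_mul_le_iff₀ (by positivity)]
  refine hle'.trans ?_
  refine mul_le_mul_of_nonneg_right ?_ (Nat.cast_nonneg _)
  linarith

end Pool.Agent.AT
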